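import Pool.Agent.H95.ND.Targets

/-!
# Module MEA of Part D: measurability of goodness
-/

open MeasureTheory ProbabilityTheory
open scoped ENNReal

namespace Pool.Agent.H97.PD

open Pool.Agent.H99.NS Pool.Agent.H22.LPP Pool.Agent.H95.INS Pool.Agent.H76.ND Pool.Agent.H95.ND
open Pool.Agent.H97.NF (PEnv eA eB PN)

theorem pf_MEA (h1 : T_NMM) (h2 : T_FCD) : T_MEA := by
  intro c Xc a I k z ha hk
  have hG : MeasurableSet {ω | good c Xc a I k ω} := by
    have e1 : {ω | good c Xc a I k ω} =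
        (⋂ i ∈ Finset.Icc a I, {ω | Nm c.q c.K0 Xc a k i ω}) ∩ {ω | FC (dk c Xc k) ω} := by
      ext ω
      simp only [good, GN, Set.mem_inter_iff, Set.mem_iInter, Finset.mem_Icc]
      constructor
      · rintro ⟨h3, h4⟩
        exact ⟨fun i hi => h3 i hi.1 hi.2, h4⟩
      · rintro ⟨h3, h4⟩
        exact ⟨fun i hi hi' => h3 i ⟨hi, hi'⟩, h4⟩
    rw [e1]
    refine MeasurableSet.inter ?_ (h2 c Xc k hk).2.2
    refine Finset.measurableSet_biInter _ fun i hi => ?_
    exact (h1 c.q c.K0 Xc a k i ha (Finset.mem_Icc.1 hi).1).1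
  exact (mp_shiftE c.q z).measurable hG

end Pool.Agent.H97.PD
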