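import Pool.Agent.H95.ND.Targets

/-!
# Modules CHV, CHN of Part D: chains of violations
-/

open MeasureTheory ProbabilityTheory
open scoped ENNReal

namespace Pool.Agent.H97.PD

open Pool.Agent.H99.NS Pool.Agent.H22.LPP Pool.Agent.H95.INS Pool.Agent.H76.ND Pool.Agent.H95.ND
open Pool.Agent.H97.NF (PEnv eA eB PN)

theorem chain_aux (hASG : T_ASG) (q : ℝ) (S Lb : Finset ℕ) (V : ℕ → ℕ → Set Env)
    (A : ℕ → Set Site) (M x : ℝ) (hM : 0 ≤ M) (hx : 3 * Real.exp (-M) ≤ x)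
    (hV : ∀ j ∈ S, ∀ i ∈ Lb, PE q (V j i) ≤
      ENNReal.ofReal (Real.exp (-((2 * ds j i + 1) * M + ds j i * (ds j i + 1)))))
    (hm : ∀ j ∈ S, ∀ i ∈ Lb, MeasurableSet (V j i))
    (hd : ∀ j ∈ S, ∀ i ∈ Lb, DepOn (A i) (fun ω => ω ∈ V j i))
    (hdis : ∀ i ∈ Lb, ∀ i' ∈ Lb, i ≠ i' → Disjoint (A i) (A i')) :
    PE q {ω | ∀ j ∈ S, ∃ i ∈ Lb, ω ∈ V j i} ≤ ENNReal.ofReal (x ^ S.card) := by
  refine (hASG Env (PE q) S Lb V M hM hV ?_).trans ?_
  · intro f hf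
    have e1 : (⋂ j ∈ S, V j (f j)) =
        ⋂ i ∈ S.image f, ⋂ j ∈ S.filter (fun j => f j = i), V j i := by
      ext ω
      simp only [Set.mem_iInter, Finset.mem_image, Finset.mem_filter]
      constructor
      · rintro h i ⟨j, hj, rfl⟩ j' ⟨hj', hjj⟩
        rw [← hjj]
        exact h j' hj'
      · intro h j hj
        exact h (f j) ⟨j, hj, rfl⟩ j ⟨hj, rfl⟩
    rw [e1]
    have him : ∀ i ∈ S.image f, i ∈ Lb := by
      intro i hi
      obtain ⟨j, hj, rfl⟩ := Finset.mem_image.1 hi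
      exact hf j hj
    refine (measure_biInter_of_depOn q (S.image f) A _ ?_ ?_ ?_).le
    · intro i hi
      refine Finset.measurableSet_biInter _ fun j hj => ?_
      exact hm j (Finset.mem_filter.1 hj).1 i (him i hi)
    · intro i hi ω ω' h
      simp only [Set.mem_iInter, eq_iff_iff]
      refine forall₂_congr fun j hj => ?_
      exact eq_iff_iff.1 (hd j (Finset.mem_filter.1 hj).1 i (him i hi) ω ω' h)
    · intro i hi i' hi' hne
      exact hdis i (him i hi) i' (him i' hi') hne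
  · apply ENNReal.ofReal_le_ofReal
    exact pow_le_pow_left₀ (by positivity) hx _

theorem exists_M (x : ℝ) (hx : 0 < x) (hx1 : x ≤ 1) : ∃ M : ℝ, 0 ≤ M ∧ 3 * Real.exp (-M) ≤ x := by
  refine ⟨Real.log (3 / x), Real.log_nonneg ?_, ?_⟩
  · rw [le_div_iff₀ hx]
    linarith
  · rw [Real.exp_neg, Real.exp_log (by positivity)]
    apply le_of_eq
    field_simp

theorem pf_CHN (h1 : T_ASR) (h2 : T_ASG) (h3 : T_NMM) (h4 : T_D3D) : T_CHN := by
  intro q hq0 hq1 hN x hx hx1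
  obtain ⟨C, c, s, hC, hc, hs, hN⟩ := hN
  obtain ⟨M, hM, hMx⟩ := exists_M x hx hx1
  obtain ⟨K00, hK00, hA⟩ := h1 C c s M hC hc hs hM
  refine ⟨K00, hK00, ?_⟩
  intro K0 Xc a I S hK0 hXc hSml ha hS
  have hK01 : 1 ≤ K0 := hK00.trans hK0
  have := chain_aux h2 q S (Finset.Icc a I) (fun j i => {ω | ¬ Nm q K0 Xc a j i ω}) (LS a) M x hM
    hMx ?_ ?_ ?_ ?_
  · refine (measure_mono ?_).trans this
    intro ω hω j hj
    have h5 := hω j hj
    unfold GN at h5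
    push Not at h5
    obtain ⟨i, hi1, hi2, hi3⟩ := h5
    exact ⟨i, Finset.mem_Icc.2 ⟨hi1, hi2⟩, hi3⟩
  · intro j hj i hi
    rw [Finset.mem_Icc] at hi
    exact (hN K0 Xc a j i hK01 hXc hSml ha hi.1 (hS j hj)).trans (hA K0 (ds j i) hK0)
  · intro j hj i hi
    rw [Finset.mem_Icc] at hi
    exact (h3 q K0 Xc a j i ha hi.1).1.compl
  · intro j hj i hi ω ω' h
    rw [Finset.mem_Icc] at hi
    have h5 := (h3 q K0 Xc a j i ha hi.1).2 ω ω' h
    simp only [Set.mem_ofPred_eq]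
    simp only at h5
    rw [h5]
  · intro i hi i' hi' hne
    rw [Finset.mem_Icc] at hi hi'
    exact (h4 q K0 Xc 0 0 a 0 i ha hi.1).2.2 i' hi'.1 (Ne.symm hne)

theorem pf_CHV (h1 : T_ASR) (h2 : T_ASG) (h3 : T_D3D) (h4 : T_FIM) : T_CHV := by
  intro q hq0 hq1 hV x hx hx1
  obtain ⟨C, c, s, hC, hc, hs, hV⟩ := hV
  obtain ⟨M, hM, hMx⟩ := exists_M x hx hx1
  obtain ⟨K00, hK00, hA⟩ := h1 C c s M hC hc hs hM
  refine ⟨K00, hK00, ?_⟩
  intro K0 Xc A a k S hK0 hA200 hAX hSml ha hS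
  have hK01 : 1 ≤ K0 := hK00.trans hK0
  have := chain_aux h2 q S (Finset.Ico a k)
    (fun j i => {ω | VV q K0 Xc (A * 16 ^ k) (16 ^ k) a j i ω})
    (fun i => LS a i ∩ {x | |x.2| < A * 16 ^ k}) M x hM hMx ?_ ?_ ?_ ?_
  · refine (measure_mono ?_).trans this
    intro ω hω j hj
    obtain ⟨i, hi1, hi2, hi3⟩ := hω j hj
    exact ⟨i, Finset.mem_Ico.2 ⟨hi1, hi2⟩, hi3⟩
  · intro j hj i hi
    rw [Finset.mem_Ico] at hi
    exact (hV K0 Xc A a j i k hK01 hA200 hAX hSml ha (hS j hj).1 (hS j hj).2 hi.1 hi.2).trans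
      (hA K0 (ds j i) hK0)
  · intro j hj i hi
    rw [Finset.mem_Ico] at hi
    obtain ⟨d1, d2, -⟩ := h3 q K0 Xc (A * 16 ^ k) (16 ^ k) a j i ha hi.1
    exact h4 _ _ d2 d1
  · intro j hj i hi
    rw [Finset.mem_Ico] at hi
    exact (h3 q K0 Xc (A * 16 ^ k) (16 ^ k) a j i ha hi.1).1
  · intro i hi i' hi' hne
    rw [Finset.mem_Ico] at hi hi'
    exact ((h3 q K0 Xc 0 0 a 0 i ha hi.1).2.2 i' hi'.1 (Ne.symm hne)).mono Set.inter_subset_left
      Set.inter_subset_left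

end Pool.Agent.H97.PD
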