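import Pool.Agent.H95.ND.Targets

/-!
# Module PK of Part D: constants
-/

open MeasureTheory ProbabilityTheory
open scoped ENNReal

namespace Pool.Agent.H97.PD

open Pool.Agent.H99.NS Pool.Agent.H22.LPP Pool.Agent.H95.INS Pool.Agent.H76.ND Pool.Agent.H95.ND
open Pool.Agent.H97.NF (PEnv eA eB PN)

theorem pf_PK (h1 : T_PRB) (h2 : T_PAL) : T_PK := by
  intro q cs hq0 hq1 hcs iA iC iB iS iL δ C₀ K0 hδ hδ1 hC₀ hK0
  have hsg := sg_pos hq0 hq1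
  obtain ⟨A, H, Y, p0, k₀, hA, hp0, hk₀, hH, hmain⟩ := h1 q cs hq0 hq1 hcs iA iC iB iS iL
    (C₀ * K0 ^ 2) (max (C₀ * K0) (max 200 (256 * K0 / sg q))) (δ ^ 2 / 4) (by positivity)
    (le_max_of_le_right (le_max_of_le_left (by norm_num))) (by positivity)
  set c : Cst := ⟨q, K0, C₀ * K0 ^ 2, max (C₀ * K0) (max 200 (256 * K0 / sg q)), H, Y, A⟩ with hc
  have hall : ∀ (Xc : ℤ) (k : ℕ), k₀ ≤ k → 16 * A ≤ Xc → Xc + A ≤ 32 * 4 ^ k →
      16 * A * 16 ^ k ≤ Xc * 16 ^ k ∧ Xc * 16 ^ k + A * 16 ^ k ≤ 32 * 64 ^ k := by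
    intro Xc k _ hx1 hx2
    have hp : (0 : ℤ) < 16 ^ k := by positivity
    refine ⟨mul_le_mul_of_nonneg_right hx1 hp.le, ?_⟩
    have e1 : (64 : ℤ) ^ k = 4 ^ k * 16 ^ k := by rw [← mul_pow]; norm_num
    rw [e1, ← add_mul, ← mul_assoc]
    exact mul_le_mul_of_nonneg_right hx2 hp.le
  -- one admissible scale
  obtain ⟨n, hn⟩ : ∃ n : ℕ, A = n := ⟨A.toNat, (Int.toNat_of_nonneg (by omega)).symm⟩
  have hbig : 16 * A + A ≤ 32 * 4 ^ (max k₀ n) := by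
    have e1 : (n : ℤ) < 4 ^ n := by
      have := Nat.lt_pow_self (show 1 < 4 by norm_num) (n := n)
      exact_mod_cast this
    have e2 : (4 : ℤ) ^ n ≤ 4 ^ (max k₀ n) := pow_le_pow_right₀ (by norm_num) (le_max_right _ _)
    rw [← hn] at e1
    linarith
  obtain ⟨f1, f2⟩ := hall (16 * A) (max k₀ n) (le_max_left _ _) le_rfl hbig
  obtain ⟨g1, g2, -⟩ := hmain (max k₀ n) (16 * A * 16 ^ (max k₀ n)) (le_max_left _ _) f1 f2
  have hBA : max (C₀ * K0) (max 200 (256 * K0 / sg q)) ≤ (A : ℝ) := g1.BA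
  have hB2 : (200 : ℝ) ≤ A := (le_max_left _ _).trans ((le_max_right _ _).trans hBA)
  have hB3 : 256 * K0 / sg q ≤ (A : ℝ) := (le_max_right _ _).trans ((le_max_right _ _).trans hBA)
  have hp01 : p0 ≤ 1 := by
    refine g2.trans ?_
    unfold pH
    exact prob_le_one
  have hpp : p0 ^ 2 / 2 ≤ p0 := by
    calc p0 ^ 2 / 2 ≤ p0 ^ 2 := ENNReal.half_le_self
      _ = p0 * p0 := sq p0
      _ ≤ p0 * 1 := by gcongr
      _ = p0 := mul_one _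
  refine ⟨c, k₀, p0 ^ 2 / 2, rfl, ?_⟩
  refine ⟨rfl, hK0, le_rfl, le_max_left _ _, hH, ?_, ?_, ?_, hpp.trans hp01, ?_, ?_, ?_, ?_⟩
  · exact_mod_cast hB2
  · change 256 * K0 ≤ sg q * (A : ℝ)
    rw [div_le_iff₀ hsg] at hB3
    linarith
  · exact ENNReal.div_pos (pow_ne_zero 2 hp0.ne') (by norm_num)
  · intro Xc k hk hx1 hx2
    obtain ⟨e1, e2⟩ := hall Xc k hk hx1 hx2
    exact (hmain k (Xc * 16 ^ k) hk e1 e2).1
  · intro Xc k hk hx1 hx2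
    obtain ⟨e1, e2⟩ := hall Xc k hk hx1 hx2
    exact (hmain k (Xc * 16 ^ k) hk e1 e2).2.2.1
  · intro Xc k hk hx1 hx2
    obtain ⟨e1, e2⟩ := hall Xc k hk hx1 hx2
    exact hpp.trans (hmain k (Xc * 16 ^ k) hk e1 e2).2.1
  · intro Xc k hk hx1 hx2 out o e hE hG
    obtain ⟨e1, e2⟩ := hall Xc k hk hx1 hx2
    obtain ⟨m1, m2, m3, m4, -⟩ := hmain k (Xc * 16 ^ k) hk e1 e2
    have := h2 (dk c Xc k) out o e m1 hE hG m4
    refine le_trans ?_ this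
    gcongr
    exact m2

end Pool.Agent.H97.PD
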